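import Pool.Agent.J6H68.Nut.Stm

/-!
# Regular nut graphs: 2-adic nonsingularity (module EVL)
-/

set_option autoImplicit false
set_option linter.unusedSectionVars false

namespace Pool.Agent.J6H97.Nut

open Finset Pool.Agent.TH296.Nut Pool.Agent.J6H28.Nut Pool.Agent.J6H68.Nut

variable {V : Type} [Fintype V] [DecidableEq V]

/-- the sum of the entries of a kernel vector is zero -/
theorem sum_zero {B : V → V → ℤ} {ρ : ℕ} (hs : ∀ i j, B i j = B j i) (h0 : 0 < ρ)
    (hrow : ∀ i, ∑ j, B i j = ρ) {y : V → ℤ} (hy : ∀ i, ∑ j, B i j * y j = 0) :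
    ∑ j, y j = 0 := by
  have h1 : ∑ i, ∑ j, B i j * y j = 0 := Finset.sum_eq_zero fun i _ => hy i
  rw [Finset.sum_comm] at h1
  have h2 : ∀ j, ∑ i, B i j * y j = ρ * y j := by
    intro j
    rw [← Finset.sum_mul, ← hrow j]
    congr 1
    exact Finset.sum_congr rfl fun i _ => hs i j
  rw [Finset.sum_congr rfl fun j _ => h2 j, ← Finset.mul_sum] at h1
  rcases mul_eq_zero.1 h1 with h | h
  · exact absurd (by exact_mod_cast h : ρ = 0) (by omega)
  · exact h

/-- a vector which is constant modulo `2` -/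
theorem const_mod {w : V → ℤ} {c : ℤ} (h : ∀ i, (w i : ZMod 2) = (c : ZMod 2)) :
    ∃ w' : V → ℤ, ∀ i, w i = c + 2 * w' i := by
  have : ∀ i, ∃ d : ℤ, w i = c + 2 * d := by
    intro i
    have h1 : ((w i - c : ℤ) : ZMod 2) = 0 := by
      push_cast
      rw [h i, sub_self]
    obtain ⟨d, hd⟩ := (ZMod.intCast_zmod_eq_zero_iff_dvd (w i - c) 2).1 h1
    exact ⟨d, by push_cast at hd; linarith⟩
  choose w' hw' using this
  exact ⟨w', hw'⟩

theorem odd_cast {U : ℤ} (h : U % 2 = 1) : (U : ZMod 2) = 1 := by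
  have h1 : ((U - 1 : ℤ) : ZMod 2) = 0 := (ZMod.intCast_zmod_eq_zero_iff_dvd (U - 1) 2).2 (by omega)
  push_cast at h1
  exact sub_eq_zero.1 h1

/-- `B w` for `y = U + 2 ^ e w` -/
theorem Bw_eq {B : V → V → ℤ} {ρ : ℕ} (hrow : ∀ i, ∑ j, B i j = ρ) {y w : V → ℤ} {U : ℤ}
    {r e s : ℕ} (hρ : ρ = 2 ^ r * s) (he : e ≤ r)
    (hy : ∀ i, ∑ j, B i j * y j = 0) (hw : ∀ i, y i = U + 2 ^ e * w i) (i : V) :
    ∑ j, B i j * w j = -(U * 2 ^ (r - e) * s) := by
  have h1 := hy i
  have h2 : ∑ j, B i j * y j = U * ∑ j, B i j + 2 ^ e * ∑ j, B i j * w j := by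
    rw [Finset.mul_sum, Finset.mul_sum, ← Finset.sum_add_distrib]
    refine Finset.sum_congr rfl fun j _ => ?_
    rw [hw j]
    ring
  rw [h2, hrow i, hρ] at h1
  have h3 : (2 : ℤ) ^ r = 2 ^ e * 2 ^ (r - e) := by
    rw [← pow_add]
    congr 1
    omega
  push_cast at h1
  rw [h3] at h1
  have h4 : (2 : ℤ) ^ e * (U * 2 ^ (r - e) * s + ∑ j, B i j * w j) = 0 := by
    rw [← h1]
    ring
  rcases mul_eq_zero.1 h4 with h | h
  · exact absurd h (by positivity)
  · linarith

/-- the 2-adic expansion -/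
theorem expand {S B : V → V → ℤ} {ρ : ℕ} (hBS : ∀ i j, (B i j : ZMod 2) = S i j)
    (hrow : ∀ i, ∑ j, B i j = ρ) (hK : Ker1 S) {y : V → ℤ} {r s : ℕ} (hρ : ρ = 2 ^ r * s)
    (hy : ∀ i, ∑ j, B i j * y j = 0) (hy1 : ∀ i, (y i : ZMod 2) = 1) :
    ∀ e, 1 ≤ e → e ≤ r → ∃ (U : ℤ) (w : V → ℤ), U % 2 = 1 ∧ ∀ i, y i = U + 2 ^ e * w i := by
  intro e he
  induction e, he using Nat.le_induction with
  | base =>
    intro _
    obtain ⟨w, hw⟩ := const_mod (w := y) (c := 1) (by intro i; rw [hy1 i]; simp)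
    exact ⟨1, w, by norm_num, by intro i; rw [hw i, pow_one]⟩
  | succ e he ih =>
    intro her
    obtain ⟨U, w, hU, hw⟩ := ih (by omega)
    have h1 : ∀ i, ∑ j, (S i j : ZMod 2) * (w j : ZMod 2) = 0 := by
      intro i
      have h2 := Bw_eq hrow hρ (by omega : e ≤ r) hy hw i
      have h3 : ((∑ j, B i j * w j : ℤ) : ZMod 2) = 0 := by
        rw [h2]
        obtain ⟨k, hk⟩ : ∃ k, r - e = k + 1 := ⟨r - e - 1, by omega⟩
        refine (ZMod.intCast_zmod_eq_zero_iff_dvd _ 2).2 ?_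
        rw [hk, pow_succ]
        exact ⟨-(U * 2 ^ k * s), by push_cast; ring⟩
      push_cast at h3
      rw [← h3]
      refine Finset.sum_congr rfl fun j _ => ?_
      rw [hBS]
    have h2 : ∃ c : ℤ, ∀ i, (w i : ZMod 2) = (c : ZMod 2) := by
      rcases hK (fun j => (w j : ZMod 2)) h1 with h | h
      · exact ⟨0, fun i => by have := congrFun h i; simpa using this⟩
      · exact ⟨1, fun i => by have := congrFun h i; simpa using this⟩
    obtain ⟨c, hc⟩ := h2
    obtain ⟨w', hw'⟩ := const_mod hc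
    refine ⟨U + 2 ^ e * c, w', ?_, fun i => ?_⟩
    · obtain ⟨k, hk⟩ : ∃ k, e = k + 1 := ⟨e - 1, by omega⟩
      rw [hk, pow_succ]
      have : U + 2 ^ k * 2 * c = U + 2 * (2 ^ k * c) := by ring
      rw [this]
      omega
    · rw [hw i, hw' i, pow_succ]
      ring

/-- **Module EVL.** -/
theorem st_evl : StEvl := by
  intro V _ _ S B ρ hBS hBs h0 h2 hrow hK hcase y hy i0
  by_contra hi0
  obtain ⟨Y, hY, hY1⟩ := odd_vec S B hBS (fun _ => 1) (fun v hv => hK v hv) y hy i0 hi0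
  have hsum : ∑ j, Y j = 0 := sum_zero hBs h0 hrow hY
  rcases hcase with hc | ⟨r, s, σ, hρ, hs, ⟨w0, hw0, hσ⟩, hne⟩
  · have h3 : ((∑ j, Y j : ℤ) : ZMod 2) = (Fintype.card V : ZMod 2) := by
      push_cast
      rw [Finset.sum_congr rfl fun j _ => hY1 j]
      simp
    rw [hsum] at h3
    have h4 : ((Fintype.card V : ℕ) : ZMod 2) = 0 := by rw [← h3]; simp
    rw [ZMod.natCast_eq_zero_iff] at h4
    omega
  · have hr : 1 ≤ r := by
      rcases Nat.eq_zero_or_pos r with h | h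
      · subst h
        rw [pow_zero, one_mul] at hρ
        omega
      · exact h
    obtain ⟨U, w, hU, hw⟩ := expand hBS hrow hK hρ hY hY1 r hr le_rfl
    -- `S w = 1`
    have hSw : ∀ i, ∑ j, (S i j : ZMod 2) * (w j : ZMod 2) = 1 := by
      intro i
      have h3 := Bw_eq hrow hρ le_rfl hY hw i
      rw [Nat.sub_self, pow_zero, mul_one] at h3
      have h4 : ((∑ j, B i j * w j : ℤ) : ZMod 2) = 1 := by
        rw [h3]
        have hs' : ((s : ℤ) : ZMod 2) = 1 := odd_cast (by omega)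
        rw [Int.cast_neg, Int.cast_mul, odd_cast hU, hs', one_mul]
        decide
      push_cast at h4
      rw [← h4]
      refine Finset.sum_congr rfl fun j _ => ?_
      rw [hBS]
    -- difference with `w0`
    have h5 : ∀ i, ∑ j, (S i j : ZMod 2) * ((w j : ZMod 2) + w0 j) = 0 := by
      intro i
      have e : ∑ j, (S i j : ZMod 2) * ((w j : ZMod 2) + w0 j) =
        ∑ j, (S i j : ZMod 2) * (w j : ZMod 2) + ∑ j, (S i j : ZMod 2) * w0 j := by
        rw [← Finset.sum_add_distrib]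
        refine Finset.sum_congr rfl fun j _ => ?_
        ring
      rw [e, hSw i, hw0 i]
      decide
    -- the sum
    have h6 : U * (Fintype.card V : ℤ) + 2 ^ r * ∑ j, w j = 0 := by
      have e : ∑ j, Y j = ∑ j : V, (U + 2 ^ r * w j) := Finset.sum_congr rfl fun j _ => hw j
      rw [Finset.sum_add_distrib, ← Finset.mul_sum, Finset.sum_const, Finset.card_univ,
        nsmul_eq_mul] at e
      rw [← hsum, e]
      ring
    have h7 : (2 : ℤ) ^ r ∣ (Fintype.card V : ℤ) := by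
      have h8 : (2 : ℤ) ^ r ∣ U * (Fintype.card V : ℤ) :=
        ⟨-∑ j, w j, by linarith⟩
      have hcop : IsCoprime ((2 : ℤ) ^ r) U := by
        apply IsCoprime.pow_left
        rw [Int.isCoprime_iff_gcd_eq_one]
        have : Int.gcd 2 U = 1 := by
          rw [Int.gcd_comm]
          exact Int.isCoprime_iff_gcd_eq_one.1 ⟨1, -(U / 2), by omega⟩
        exact this
      exact hcop.dvd_of_dvd_mul_left h8
    have h8 : 2 ^ r ∣ Fintype.card V := by exact_mod_cast h7
    obtain ⟨c0, hc0⟩ := h8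
    have h9 : U * (c0 : ℤ) + ∑ j, w j = 0 := by
      have e : (2 : ℤ) ^ r * (U * (c0 : ℤ) + ∑ j, w j) = 0 := by
        rw [hc0] at h6
        push_cast at h6
        rw [← h6]
        ring
      rcases mul_eq_zero.1 e with h | h
      · exact absurd h (by positivity)
      · exact h
    -- modulo 2
    have h10 : (c0 : ZMod 2) + ∑ j, (w j : ZMod 2) = 0 := by
      have e : ((U * (c0 : ℤ) + ∑ j, w j : ℤ) : ZMod 2) = 0 := by rw [h9]; simp
      rw [Int.cast_add, Int.cast_mul, odd_cast hU, one_mul] at e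
      push_cast at e
      exact e
    have hm : ((Fintype.card V : ℕ) : ZMod 2) = 0 := by
      rw [ZMod.natCast_eq_zero_iff, hc0]
      exact Dvd.dvd.mul_right (dvd_pow_self 2 (by omega)) c0
    have h11 : ∑ j, ((w j : ZMod 2) + w0 j) = 0 := by
      rcases hK _ h5 with h | h
      · exact Finset.sum_eq_zero fun j _ => congrFun h j
      · rw [Finset.sum_congr rfl fun j _ => congrFun h j]
        simpa using hm
    rw [Finset.sum_add_distrib, hσ] at h11
    refine hne c0 hc0 ?_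
    linear_combination h11 - h10

end Pool.Agent.J6H97.Nut
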